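import Pool.Agent.W661.RC.Stm

/-!
# Project RC: reduce the sizes of the pieces
-/

set_option autoImplicit false

namespace Pool.Agent.W392.RC.CMB

open Pool.Agent.W661.RC Finset

theorem main : CmbP := by
  intro I K _ _ _ c l d ζ hζ hζ1 hL
  classical
  set L : ℕ := ∑ i, l (c i) with hLdef
  by_cases hLd : L ≤ d
  · refine ⟨Finset.univ, l, fun _ => le_refl _, hLd, ?_⟩
    rw [← hLdef]
    have : (0 : ℝ) ≤ (L : ℝ) := Nat.cast_nonneg _
    nlinarith
  push Not at hLd
  -- sizes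
  have hLd' : (d : ℝ) + 1 ≤ L := by exact_mod_cast hLd
  have hζ2 : 0 < ζ ^ 2 := by positivity
  have hd8 : 8 ≤ ζ ^ 2 * d := by linarith
  have hdL : (1 - ζ / 8) * (L : ℝ) ≤ d := by
    have hd0 : (0 : ℝ) ≤ d := Nat.cast_nonneg _
    have h1 : (1 - ζ / 8) * (L : ℝ) ≤ (1 - ζ / 8) * ((1 + ζ ^ 2 / 8) * d) :=
      mul_le_mul_of_nonneg_left hL (by linarith)
    have h2 : (1 - ζ / 8) * (1 + ζ ^ 2 / 8) ≤ 1 := by nlinarith
    have h3 := mul_le_mul_of_nonneg_right h2 hd0
    linarith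
  have hL4 : 4 ≤ ζ ^ 2 * L := by nlinarith
  let P : ℕ → Prop := fun t => ∃ (I' : Finset I) (l' : K → ℕ), (∀ j, l' j ≤ l j) ∧
    ∑ i ∈ I', l' (c i) = t ∧ d < t
  have hP : ∃ t, P t := ⟨L, Finset.univ, l, fun _ => le_refl _, rfl, hLd⟩
  obtain ⟨I', l', hl', hT, hTd⟩ := Nat.find_spec hP
  have hmin : ∀ (I'' : Finset I) (l'' : K → ℕ), (∀ j, l'' j ≤ l j) →
      ∑ i ∈ I'', l'' (c i) < Nat.find hP → ∑ i ∈ I'', l'' (c i) ≤ d := by
    intro I'' l'' h1 h2
    by_contra h3
    push Not at h3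
    exact Nat.find_min hP h2 ⟨I'', l'', h1, rfl, h3⟩
  set T := Nat.find hP with hTdef
  have hTd' : (d : ℝ) + 1 ≤ T := by exact_mod_cast hTd
  obtain ⟨i0, hi0, hpos⟩ : ∃ i0 ∈ I', 0 < l' (c i0) := by
    by_contra h
    push Not at h
    have : ∑ i ∈ I', l' (c i) = 0 := Finset.sum_eq_zero fun i hi => Nat.le_zero.1 (h i hi)
    omega
  set k0 : ℕ := (Finset.univ.filter fun i => c i = c i0).card with hk0
  have hk1 : 1 ≤ k0 := Finset.card_pos.2 ⟨i0, Finset.mem_filter.2 ⟨Finset.mem_univ _, rfl⟩⟩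
  rcases le_or_gt (2 : ℝ) (ζ * k0) with hk | hk
  · -- remove `i0`
    have e1 : ∑ i ∈ I'.erase i0, l' (c i) + l' (c i0) = T := by
      rw [Finset.sum_erase_add _ _ hi0, hT]
    refine ⟨I'.erase i0, l', hl', hmin _ _ hl' (by omega), ?_⟩
    have e2 : k0 * l (c i0) ≤ L := by
      calc k0 * l (c i0) = ∑ i ∈ Finset.univ.filter (fun i => c i = c i0), l (c i) := by
            rw [Finset.sum_congr rfl (g := fun _ => l (c i0))
              (fun i hi => by rw [(Finset.mem_filter.1 hi).2]), Finset.sum_const, smul_eq_mul]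
        _ ≤ L := Finset.sum_le_sum_of_subset (Finset.filter_subset _ _)
    have e3 : (k0 : ℝ) * l (c i0) ≤ L := by exact_mod_cast e2
    have e4 : (l' (c i0) : ℝ) ≤ l (c i0) := by exact_mod_cast hl' (c i0)
    have e5 : ((∑ i ∈ I'.erase i0, l' (c i) : ℕ) : ℝ) + l' (c i0) = T := by exact_mod_cast e1
    have e6 : 2 * (l (c i0) : ℝ) ≤ ζ * L := by
      have h1 : 2 * (l (c i0) : ℝ) ≤ (ζ * k0) * l (c i0) :=
        mul_le_mul_of_nonneg_right hk (Nat.cast_nonneg _)
      have h2 := mul_le_mul_of_nonneg_left e3 hζ.le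
      linarith
    have e7 : 0 ≤ ζ * (L : ℝ) := by positivity
    linarith
  · -- lower `l'` at `c i0`
    set l'' : K → ℕ := Function.update l' (c i0) (l' (c i0) - 1) with hl''
    have hle : ∀ j, l'' j ≤ l j := by
      intro j
      rw [hl'']
      by_cases hj : j = c i0
      · subst hj
        rw [Function.update_self]
        have := hl' (c i0)
        omega
      · rw [Function.update_of_ne hj]
        exact hl' j
    set r : ℕ := (I'.filter fun i => c i = c i0).card with hr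
    have hr1 : 1 ≤ r := Finset.card_pos.2 ⟨i0, Finset.mem_filter.2 ⟨hi0, rfl⟩⟩
    have hrk : r ≤ k0 := Finset.card_le_card (Finset.filter_subset_filter _ (Finset.subset_univ _))
    have e1 : ∑ i ∈ I', l'' (c i) + r = T := by
      rw [← hT, hr, Finset.card_filter, ← Finset.sum_add_distrib]
      refine Finset.sum_congr rfl fun i _ => ?_
      rw [hl'']
      by_cases hi : c i = c i0
      · rw [hi, Function.update_self, if_pos rfl]
        omega
      · rw [Function.update_of_ne hi, if_neg hi, add_zero]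
    refine ⟨I', l'', hle, hmin _ _ hle (by omega), ?_⟩
    have e5 : ((∑ i ∈ I', l'' (c i) : ℕ) : ℝ) + r = T := by exact_mod_cast e1
    have hrk' : (r : ℝ) ≤ k0 := by exact_mod_cast hrk
    have e6 : 2 * (k0 : ℝ) ≤ ζ * L := by
      have h1 : ζ * (2 * (k0 : ℝ)) ≤ ζ * (ζ * L) := by nlinarith
      exact le_of_mul_le_mul_left h1 hζ
    have e7 : 0 ≤ ζ * (L : ℝ) := by positivity
    linarith

end Pool.Agent.W392.RC.CMB
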